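import Pool.Agent.H424.KS.Pos

set_option autoImplicit false

open MeasureTheory Filter Topology Set

namespace Pool.Agent.H424.KS

noncomputable def Q (y : ℝ) : ℝ := 2 / Real.pi * (1 / 2 / (1 + y ^ 2) ^ 2)

noncomputable def U (y : ℝ) : ℝ := 1 / 2 * Real.log (1 + y ^ 2) - Real.log y

lemma Q_nonneg (y : ℝ) : 0 ≤ Q y := by
  have := Real.pi_pos
  unfold Q; positivity

lemma Q_le (y : ℝ) : Q y ≤ 1 / (1 + y ^ 2) ^ 2 := by
  unfold Q
  have h1 : 2 / Real.pi * (1 / 2 / (1 + y ^ 2) ^ 2) = (1 / Real.pi) * (1 / (1 + y ^ 2) ^ 2) := by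
    field_simp
  rw [h1]
  have h2 : 1 / Real.pi ≤ 1 := by
    rw [div_le_one Real.pi_pos]
    linarith [Real.pi_gt_three]
  have h3 : 0 ≤ 1 / (1 + y ^ 2) ^ 2 := by positivity
  nlinarith

lemma U_nonneg (y : ℝ) (hy : 0 ≤ y) : 0 ≤ U y := by
  unfold U
  have := log_le 1 y hy
  simp only [Nat.cast_one, one_mul, mul_one] at this
  linarith

lemma U_le (y : ℝ) (hy : 0 < y) : U y ≤ 1 / y := by
  have h0 : 0 < 1 + 1 / y ^ 2 := by positivity
  have h1 : U y = 1 / 2 * Real.log (1 + 1 / y ^ 2) := by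
    unfold U
    have : 1 + 1 / y ^ 2 = (1 + y ^ 2) / y ^ 2 := by field_simp; ring
    rw [this, Real.log_div (by positivity) (by positivity), Real.log_pow]
    push_cast; ring
  have h2 : Real.log (1 + 1 / y ^ 2) ≤ 2 / y := by
    have h3 : Real.log (1 + 1 / y ^ 2) ≤ Real.log ((1 + 1 / y) ^ 2) := by
      apply Real.log_le_log h0
      have : 0 < 1 / y := by positivity
      have h4 : (1 + 1 / y) ^ 2 = 1 + 1 / y ^ 2 + 2 * (1 / y) := by
        field_simp; ring
      linarith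
    rw [Real.log_pow] at h3
    have h5 : Real.log (1 + 1 / y) ≤ 1 / y := by
      have := Real.log_le_sub_one_of_pos (x := 1 + 1 / y) (by positivity)
      linarith
    have h6 : 2 / y = 2 * (1 / y) := by ring
    rw [h6]
    push_cast at h3
    linarith
  rw [h1]
  have h6 : 2 / y = 2 * (1 / y) := by ring
  linarith

lemma Q_meas : Measurable Q := by unfold Q; fun_prop

lemma U_meas : Measurable U := by
  unfold U
  exact ((Real.measurable_log.comp (by fun_prop)).const_mul _).sub Real.measurable_log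

lemma radial {f : ℝ → ℝ} (hf : Measurable f) (hb : ∀ y, 0 < y → |f y| ≤ 1 / y * (1 + y ^ 2)⁻¹) :
    Integrable (fun w : ℂ => f ‖w‖) := by
  rw [integrable_fun_norm_addHaar (volume : Measure ℂ) (f := f), Complex.finrank_real_complex]
  simp only [Nat.add_one_sub_one, pow_one, smul_eq_mul]
  refine Integrable.mono' (integrable_inv_one_add_sq.integrableOn) (by fun_prop) ?_
  refine (ae_restrict_iff' measurableSet_Ioi).2 (Eventually.of_forall fun y hy => ?_)
  have hy0 : 0 < y := hy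
  rw [Real.norm_eq_abs, abs_mul, abs_of_pos hy0]
  calc y * |f y| ≤ y * (1 / y * (1 + y ^ 2)⁻¹) := by
        exact mul_le_mul_of_nonneg_left (hb y hy0) hy0.le
    _ = (1 + y ^ 2)⁻¹ := by field_simp

lemma Q_int : Integrable (fun w : ℂ => Q ‖w‖) := by
  refine radial Q_meas fun y hy => ?_
  rw [abs_of_nonneg (Q_nonneg y)]
  refine (Q_le y).trans ?_
  rw [← one_div, one_div_mul_one_div, one_div_le_one_div (by positivity) (by positivity)]
  nlinarith [sq_nonneg y, sq_nonneg (y - 1), mul_nonneg (sq_nonneg y) (sq_nonneg y)]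

lemma UQ_int : Integrable (fun w : ℂ => U ‖w‖ * Q ‖w‖) := by
  refine radial (f := fun y => U y * Q y) (U_meas.mul Q_meas) fun y hy => ?_
  rw [abs_of_nonneg (mul_nonneg (U_nonneg y hy.le) (Q_nonneg y))]
  refine mul_le_mul (U_le y hy) ((Q_le y).trans ?_) (Q_nonneg y) (by positivity)
  rw [← one_div, one_div_le_one_div (by positivity) (by positivity)]
  nlinarith [sq_nonneg y]

/-- the arithmetic self-intersection on `P^1_Z` -/
theorem adeg_one (K : ℝ) : adeg 1 (fun _ : Fin 2 => pw (fun _ : Fin 1 => 1) K) =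
    K + (K * (∫ w : ℂ, Q ‖w‖) + ∫ w : ℂ, U ‖w‖ * Q ‖w‖) := by
  have h1 := adeg_succ (d := 0) (fun _ _ => 1) (fun _ => K) (fun _ _ => le_refl 1)
  rw [h1]
  have h2 : (∫ z : Fin (0 + 1) → ℂ, ((pw (fun _ : Fin 1 => 1) K).g z -
      ∑ i, ((pw (fun _ : Fin 1 => 1) K).m i : ℝ) * Real.log ‖z i‖) *
          ma (fun _ : Fin (0 + 1) => pw (fun _ : Fin 1 => 1) K) z) =
      ∫ z : Fin 1 → ℂ, (fun w : ℂ => K * Q ‖w‖ + U ‖w‖ * Q ‖w‖) (z 0) := by
    refine integral_congr_ae (Eventually.of_forall fun z => ?_)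
    simp only
    rw [ma_eq (fun _ _ => 1) (fun _ => K) (fun _ _ => le_refl 1)]
    simp only [pw, gg, Fin.sum_univ_succ, Finset.univ_unique, Finset.sum_singleton, Finset.prod_singleton,
      Finset.univ_eq_empty, Finset.sum_empty, rho, U, Q]
    simp
    ring
  rw [h2]
  have h3 := (volume_preserving_funUnique (Fin 1) ℂ).integral_comp
    (MeasurableEquiv.measurableEmbedding _) (fun w : ℂ => K * Q ‖w‖ + U ‖w‖ * Q ‖w‖)
  have h4 : (∫ z : Fin 1 → ℂ, (fun w : ℂ => K * Q ‖w‖ + U ‖w‖ * Q ‖w‖) (z 0)) =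
      ∫ w : ℂ, (K * Q ‖w‖ + U ‖w‖ * Q ‖w‖) := h3
  rw [h4, integral_add (Q_int.const_mul K) UQ_int, integral_const_mul]
  congr 1
  simp [adeg, pw, gg]

end Pool.Agent.H424.KS
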