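import Mathlib

/-!
# Arithmetic intersection numbers of hermitian line bundles on `(P^1_Z)^d`

The scheme `(P^1_Z)^d` has homogeneous coordinates `[x_{i,0} : x_{i,1}]`, `i < d`; the affine chart `x_{i,0} = 1` has the
coordinates `z_i = x_{i,1} / x_{i,0}`.
-/

set_option autoImplicit false

open MeasureTheory Filter Topology

namespace Pool.Agent.H424.KS

/-- A hermitian line bundle `(O(m_1, ..., m_d), ‖·‖)` on `(P^1_Z)^d`: its multidegree `m` and the function
`g(z) = - log ‖x_0^m‖(z)` on the chart `C^d` of the complex points, where `x_0^m` is the section `∏ x_{i,0}^(m_i)`. -/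
structure HLB (d : ℕ) where
  /-- the multidegree -/
  m : Fin d → ℕ
  /-- `g(z) = - log ‖∏ x_{i,0}^(m_i)‖(z)` -/
  g : (Fin d → ℂ) → ℝ

/-- The restriction of a hermitian line bundle to the subscheme of `(P^1_Z)^(d+1)` on which the coordinate `i` is the
integral point `[1 : w]`, `w` an integer; this subscheme is identified with `(P^1_Z)^d`. The section `x_{i,0}` does not
vanish there, at any prime, so that it trivialises the factor `O(m_i)`. -/
def HLB.restr {d : ℕ} (L : HLB (d + 1)) (i : Fin (d + 1)) (w : ℤ) : HLB d where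
  m := fun j => L.m (i.succAbove j)
  g := fun z => L.g (i.insertNth (w : ℂ) z)

/-- The pull-back of a hermitian line bundle by the morphism `[x_{i,0} : x_{i,1}] ↦ [x_{i,0}^(a_i) : x_{i,1}^(a_i)]` of
`(P^1_Z)^d`, with the pulled back metric. -/
def HLB.pull {d : ℕ} (L : HLB d) (a : Fin d → ℕ) : HLB d where
  m := fun i => a i * L.m i
  g := fun z => L.g fun i => z i ^ a i

/-- The iterated derivative at `z` of `g` in the real directions `w` (first) and `v`. -/
noncomputable def D2 {d : ℕ} (g : (Fin d → ℂ) → ℝ) (z v w : Fin d → ℂ) : ℝ :=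
  deriv (fun s : ℝ => deriv (fun t : ℝ => g (z + (s : ℂ) • v + (t : ℂ) • w)) 0) 0

/-- The entry `∂² g / ∂z_a ∂z̄_b` of the complex Hessian of `g` at `z`:
`(1/4) (g_{x_a x_b} + g_{y_a y_b} + i (g_{x_a y_b} - g_{y_a x_b}))`. -/
noncomputable def hess {d : ℕ} (g : (Fin d → ℂ) → ℝ) (z : Fin d → ℂ) (a b : Fin d) : ℂ :=
  (1 / 4) * (((D2 g z (Pi.single a 1) (Pi.single b 1) +
      D2 g z (Pi.single a Complex.I) (Pi.single b Complex.I) : ℝ) : ℂ) +
    Complex.I * ((D2 g z (Pi.single a 1) (Pi.single b Complex.I) -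
      D2 g z (Pi.single b 1) (Pi.single a Complex.I) : ℝ) : ℂ))

/-- The density, with respect to Lebesgue measure of `C^d`, of the form `c_1(L_1) ∧ ... ∧ c_1(L_d)`, where
`c_1(L) = (i/π) ∂∂̄ g_L = (i/π) ∑ (∂² g_L / ∂z_a ∂z̄_b) dz_a ∧ dz̄_b`. -/
noncomputable def ma {d : ℕ} (L : Fin d → HLB d) (z : Fin d → ℂ) : ℝ :=
  (2 / Real.pi) ^ d * (∑ σ : Equiv.Perm (Fin d), ∑ τ : Equiv.Perm (Fin d),
    (((Equiv.Perm.sign σ : ℤ) : ℂ) * ((Equiv.Perm.sign τ : ℤ) : ℂ)) *
      ∏ j, hess (L j).g z (σ j) (τ j)).re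

/-- The arithmetic intersection number `deg (c_1(L_0) ⋯ c_1(L_d))` of `d + 1` hermitian line bundles on `(P^1_Z)^d`
(arithmetic Chern classes, arithmetic degree), by the inductive formula
`deg (c_1(L_0) ⋯ c_1(L_d)) = deg (c_1(L_0) ⋯ c_1(L_{d-1}) | div t) - ∫ log ‖t‖ c_1(L_0) ∧ ... ∧ c_1(L_{d-1})`
for the section `t = ∏ x_{i,1}^(m_i)` of `L_d`, whose divisor is the sum of `m_i` times the subscheme `x_{i,1} = 0` and
for which `- log ‖t‖(z) = g(z) - ∑ m_i log |z_i|`. For `d = 0` it is the degree `- log ‖1‖` of a hermitian line bundle on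
`Spec Z`. -/
noncomputable def adeg : (d : ℕ) → (Fin (d + 1) → HLB d) → ℝ
  | 0, L => (L 0).g ![]
  | d + 1, L =>
      ∑ i, ((L (Fin.last (d + 1))).m i : ℝ) * adeg d (fun j => (L j.castSucc).restr i 0) +
      ∫ z : Fin (d + 1) → ℂ,
        ((L (Fin.last (d + 1))).g z - ∑ i, ((L (Fin.last (d + 1))).m i : ℝ) * Real.log ‖z i‖) *
          ma (fun j => L j.castSucc) z

/-- The hermitian line bundle `O(1, ..., 1)` on `(P^1_Z)^d` with `exp(-d)` times the Fubini-Study metric:
`‖∏ x_{i,0}‖(z) = exp(-d) ∏ (1 + |z_i|²)^(-1/2)`. -/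
noncomputable def stdH (d : ℕ) : HLB d where
  m := fun _ => 1
  g := fun z => ∑ i, (1 + 1 / 2 * Real.log (1 + ‖z i‖ ^ 2))

/-- The self-map `(z_i) ↦ (z_i^(a_i))` of `(P^1)^d` in the chart `C^d`. -/
def powMap {d : ℕ} (a : Fin d → ℕ) (z : Fin d → ℂ) : Fin d → ℂ := fun i => z i ^ a i

theorem powMap_iterate {d : ℕ} (a : Fin d → ℕ) (n : ℕ) (z : Fin d → ℂ) :
    (powMap a)^[n] z = fun i => z i ^ a i ^ n := by
  induction n with
  | zero => simp
  | succ n ih =>
    rw [Function.iterate_succ_apply', ih]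
    funext i
    simp only [powMap]
    rw [← pow_mul, ← pow_succ]

end Pool.Agent.H424.KS
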