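import Pool.Agent.H424.KS.Defs

set_option autoImplicit false

open Filter Topology

namespace Pool.Agent.H424.KS

def W (s : Fin 3 →₀ ℕ) (n : ℕ) : ℕ := s 0 * 4 ^ n + s 1 * 2 ^ n + s 2 * 3 ^ n

lemma ev_le (A b : ℕ) (hb : 2 ≤ b) : ∀ᶠ n : ℕ in atTop, A * b ^ n + n ≤ (b + 1) ^ n := by
  have h1 : Tendsto (fun n : ℕ => (((b : ℝ) + 1) / b) ^ n) atTop atTop := by
    apply tendsto_pow_atTop_atTop_of_one_lt
    have : (0 : ℝ) < b := by positivity
    rw [lt_div_iff₀ this]; linarith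
  filter_upwards [h1.eventually_ge_atTop ((A : ℝ) + 1)] with n hn
  have hb0 : (0 : ℝ) < (b : ℝ) ^ n := by positivity
  rw [div_pow, le_div_iff₀ hb0] at hn
  have h2 : (A + 1) * b ^ n ≤ (b + 1) ^ n := by exact_mod_cast hn
  have h3 : n ≤ b ^ n := (Nat.lt_pow_self (by omega)).le
  nlinarith

lemma W_gap (s t : Fin 3 →₀ ℕ)
    (h : t 0 < s 0 ∨ (t 0 = s 0 ∧ (t 2 < s 2 ∨ (t 2 = s 2 ∧ t 1 < s 1)))) :
    ∀ᶠ n : ℕ in atTop, W t n + n ≤ W s n := by
  rcases h with h | ⟨h0, h | ⟨h1, h⟩⟩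
  · filter_upwards [ev_le (t 1 + t 2) 3 (by norm_num)] with n hn
    unfold W
    have h2 : (2 : ℕ) ^ n ≤ 3 ^ n := Nat.pow_le_pow_left (by norm_num) n
    have h3 : (t 0 + 1) * 4 ^ n ≤ s 0 * 4 ^ n := Nat.mul_le_mul_right _ h
    have h4 : t 1 * 2 ^ n ≤ t 1 * 3 ^ n := Nat.mul_le_mul_left _ h2
    norm_num at hn
    rw [add_mul] at h3 hn
    have h5 := Nat.zero_le (s 1 * 2 ^ n)
    have h6 := Nat.zero_le (s 2 * 3 ^ n)
    linarith
  · filter_upwards [ev_le (t 1) 2 (by norm_num)] with n hn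
    unfold W
    have h3 : (t 2 + 1) * 3 ^ n ≤ s 2 * 3 ^ n := Nat.mul_le_mul_right _ h
    norm_num at hn
    rw [h0]
    rw [add_mul] at h3
    have h5 := Nat.zero_le (s 1 * 2 ^ n)
    linarith
  · refine Eventually.of_forall fun n => ?_
    unfold W
    have h3 : (t 1 + 1) * 2 ^ n ≤ s 1 * 2 ^ n := Nat.mul_le_mul_right _ h
    have h4 : n ≤ 2 ^ n := (Nat.lt_pow_self (by norm_num)).le
    rw [h0, h1]
    nlinarith

lemma ratio_tendsto (s t : Fin 3 →₀ ℕ)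
    (h : t 0 < s 0 ∨ (t 0 = s 0 ∧ (t 2 < s 2 ∨ (t 2 = s 2 ∧ t 1 < s 1)))) :
    Tendsto (fun n : ℕ => (2 : ℂ) ^ W t n / 2 ^ W s n) atTop (𝓝 0) := by
  rw [tendsto_zero_iff_norm_tendsto_zero]
  refine squeeze_zero' (Eventually.of_forall fun n => norm_nonneg _) ?_
    (tendsto_pow_atTop_nhds_zero_of_lt_one (r := (1 / 2 : ℝ)) (by norm_num) (by norm_num))
  filter_upwards [W_gap s t h] with n hn
  rw [norm_div, norm_pow, norm_pow, Complex.norm_ofNat, div_le_iff₀ (by positivity)]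
  calc (2 : ℝ) ^ W t n = (1 / 2) ^ n * 2 ^ (W t n + n) := by
        rw [pow_add, one_div, inv_pow]; field_simp
    _ ≤ (1 / 2) ^ n * 2 ^ W s n := by
        apply mul_le_mul_of_nonneg_left _ (by positivity)
        exact pow_le_pow_right₀ (by norm_num) hn

def key (s : Fin 3 →₀ ℕ) : ℕ ×ₗ (ℕ ×ₗ ℕ) := toLex (s 0, toLex (s 2, s 1))

lemma key_lt (s t : Fin 3 →₀ ℕ) (h : key t ≤ key s) (hne : t ≠ s) :
    t 0 < s 0 ∨ (t 0 = s 0 ∧ (t 2 < s 2 ∨ (t 2 = s 2 ∧ t 1 < s 1))) := by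
  unfold key at h
  rw [Prod.Lex.toLex_le_toLex] at h
  simp only at h
  rcases h with h | ⟨h0, h⟩
  · exact Or.inl h
  · rw [Prod.Lex.toLex_le_toLex] at h
    simp only at h
    rcases h with h | ⟨h1, h⟩
    · exact Or.inr ⟨h0, Or.inl h⟩
    · refine Or.inr ⟨h0, Or.inr ⟨h1, lt_of_le_of_ne h fun h2 => hne ?_⟩⟩
      ext i
      fin_cases i
      · exact h0
      · exact h2
      · exact h1

/-- the points `(2^(4^n), 2^(2^n), 2^(3^n))` are Zariski dense -/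
theorem dense_points (P : MvPolynomial (Fin 3) ℂ)
    (h : ∀ n : ℕ, MvPolynomial.eval ![(2 : ℂ) ^ 4 ^ n, 2 ^ 2 ^ n, 2 ^ 3 ^ n] P = 0) : P = 0 := by
  classical
  by_contra hP
  have hne : P.support.Nonempty := MvPolynomial.support_nonempty.2 hP
  obtain ⟨s, hs, hmax⟩ := P.support.exists_max_image key hne
  have h1 : ∀ n : ℕ, ∑ t ∈ P.support, P.coeff t * ((2 : ℂ) ^ W t n / 2 ^ W s n) = 0 := by
    intro n
    have h2 := h n
    rw [MvPolynomial.eval_eq'] at h2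
    have h3 : ∑ t ∈ P.support, P.coeff t * ((2 : ℂ) ^ W t n / 2 ^ W s n) =
        (∑ t ∈ P.support, P.coeff t * ∏ i, (![(2 : ℂ) ^ 4 ^ n, 2 ^ 2 ^ n, 2 ^ 3 ^ n] : Fin 3 → ℂ) i ^ t i) /
          2 ^ W s n := by
      rw [Finset.sum_div]
      refine Finset.sum_congr rfl fun t _ => ?_
      rw [mul_div_assoc]
      congr 2
      rw [Fin.prod_univ_three]
      simp only [Matrix.cons_val]
      rw [← pow_mul, ← pow_mul, ← pow_mul, ← pow_add, ← pow_add]
      congr 1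
      unfold W
      ring
    rw [h3, h2, zero_div]
  have h4 : Tendsto (fun n : ℕ => ∑ t ∈ P.support, P.coeff t * ((2 : ℂ) ^ W t n / 2 ^ W s n)) atTop
      (𝓝 (∑ t ∈ P.support, P.coeff t * (if t = s then 1 else 0))) := by
    refine tendsto_finsetSum _ fun t ht => ?_
    refine Tendsto.const_mul _ ?_
    split_ifs with hts
    · rw [hts]
      refine tendsto_const_nhds.congr fun n => ?_
      rw [div_self (pow_ne_zero _ two_ne_zero)]
    · exact ratio_tendsto s t (key_lt s t (hmax t ht) hts)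
  have h5 : ∑ t ∈ P.support, P.coeff t * (if t = s then (1 : ℂ) else 0) = P.coeff s := by
    rw [Finset.sum_eq_single s]
    · simp
    · intro t _ hts; simp [hts]
    · intro hns; exact absurd hs hns
  rw [h5] at h4
  have h6 : Tendsto (fun n : ℕ => ∑ t ∈ P.support, P.coeff t * ((2 : ℂ) ^ W t n / 2 ^ W s n)) atTop (𝓝 0) :=
    tendsto_const_nhds.congr fun n => (h1 n).symm
  exact MvPolynomial.mem_support_iff.1 hs (tendsto_nhds_unique h4 h6)

end Pool.Agent.H424.KS
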