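import Pool.Agent.H424.KS.Defs

set_option autoImplicit false

open MeasureTheory Filter Topology

namespace Pool.Agent.H424.KS

/-- `(1/2) log (1 + (x² + y²)^A)` -/
noncomputable def phi (A : ℕ) (x y : ℝ) : ℝ := 1 / 2 * Real.log (1 + (x ^ 2 + y ^ 2) ^ A)

noncomputable def phi1 (m : ℕ) (x y : ℝ) : ℝ :=
  (m + 1) * x * (x ^ 2 + y ^ 2) ^ m / (1 + (x ^ 2 + y ^ 2) ^ (m + 1))

noncomputable def phi2 (m : ℕ) (x y : ℝ) : ℝ :=
  (((m + 1) * (x ^ 2 + y ^ 2) ^ m + (m + 1) * x * (m * (x ^ 2 + y ^ 2) ^ (m - 1) * (2 * x))) *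
      (1 + (x ^ 2 + y ^ 2) ^ (m + 1)) -
    (m + 1) * x * (x ^ 2 + y ^ 2) ^ m * ((m + 1) * (x ^ 2 + y ^ 2) ^ m * (2 * x))) /
    (1 + (x ^ 2 + y ^ 2) ^ (m + 1)) ^ 2

lemma hasDerivAt_s (x y : ℝ) : HasDerivAt (fun x : ℝ => x ^ 2 + y ^ 2) (2 * x) x := by
  simpa using (hasDerivAt_pow 2 x).add_const (y ^ 2)

lemma one_add_pos (k : ℕ) (x y : ℝ) : 0 < 1 + (x ^ 2 + y ^ 2) ^ k := by positivity

lemma hasDerivAt_phi (m : ℕ) (x y : ℝ) : HasDerivAt (fun x => phi (m + 1) x y) (phi1 m x y) x := by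
  have h1 := ((hasDerivAt_s x y).pow (m + 1)).const_add 1
  have h2 := (h1.log (one_add_pos _ x y).ne').const_mul (1 / 2)
  refine h2.congr_deriv ?_
  unfold phi1
  have := (one_add_pos (m + 1) x y).ne'
  simp only [Pi.pow_apply]
  push_cast
  field_simp

lemma hasDerivAt_phi1 (m : ℕ) (x y : ℝ) : HasDerivAt (fun x => phi1 m x y) (phi2 m x y) x := by
  have h1 := ((hasDerivAt_s x y).pow (m + 1)).const_add 1
  have h2 := ((hasDerivAt_id x).const_mul ((m : ℝ) + 1)).mul ((hasDerivAt_s x y).pow m)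
  have h3 := h2.div h1 (one_add_pos _ x y).ne'
  refine h3.congr_deriv ?_
  unfold phi2
  simp

lemma phi2_add (m : ℕ) (x y : ℝ) :
    phi2 m x y + phi2 m y x = 2 * (m + 1) ^ 2 * (x ^ 2 + y ^ 2) ^ m / (1 + (x ^ 2 + y ^ 2) ^ (m + 1)) ^ 2 := by
  unfold phi2
  have h0 := (one_add_pos (m + 1) x y).ne'
  rw [add_comm (y ^ 2) (x ^ 2), ← add_div]
  congr 1
  rcases m with _ | m
  · simp; ring
  · simp only [Nat.add_sub_cancel]
    push_cast
    ring

lemma norm_sq_eq (z : ℂ) : ‖z‖ ^ 2 = z.re ^ 2 + z.im ^ 2 := by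
  rw [← Complex.normSq_eq_norm_sq, Complex.normSq_apply]; ring

lemma half_log_eq (A : ℕ) (z : ℂ) : 1 / 2 * Real.log (1 + ‖z‖ ^ (2 * A)) = phi A z.re z.im := by
  rw [pow_mul, norm_sq_eq, phi]

/-- the density of one factor -/
noncomputable def rho (A : ℕ) (z : ℂ) : ℝ :=
  (A : ℝ) ^ 2 / 2 * (‖z‖ ^ 2) ^ (A - 1) / (1 + (‖z‖ ^ 2) ^ A) ^ 2

lemma rho_nonneg (A : ℕ) (z : ℂ) : 0 ≤ rho A z := by
  unfold rho; positivity

/-- the functions `g` of the hermitian line bundles which occur -/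
noncomputable def gg {d : ℕ} (a : Fin d → ℕ) (c : ℝ) (z : Fin d → ℂ) : ℝ :=
  c + ∑ i, 1 / 2 * Real.log (1 + ‖z i‖ ^ (2 * a i))

variable {d : ℕ}

lemma deriv_re (m : ℕ) (x y s : ℝ) :
    deriv (fun t : ℝ => phi (m + 1) (x + s + t) y) 0 = phi1 m (x + s) y := by
  have h := HasDerivAt.comp (0 : ℝ) (h₂ := fun x => phi (m + 1) x y) (hasDerivAt_phi m (x + s + 0) y)
    ((hasDerivAt_id (0 : ℝ)).const_add (x + s))
  have h2 := h.deriv
  simp only [add_zero, mul_one] at h2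
  exact h2

lemma deriv_re2 (m : ℕ) (x y : ℝ) : deriv (fun s : ℝ => phi1 m (x + s) y) 0 = phi2 m x y := by
  have h := HasDerivAt.comp (0 : ℝ) (h₂ := fun x => phi1 m x y) (hasDerivAt_phi1 m (x + 0) y)
    ((hasDerivAt_id (0 : ℝ)).const_add x)
  have h2 := h.deriv
  simp only [add_zero, mul_one] at h2
  exact h2

lemma phi_symm (A : ℕ) (x y : ℝ) : phi A x y = phi A y x := by
  unfold phi; rw [add_comm (x ^ 2)]

/-- `D2` of a function of this kind in two directions which belong to one coordinate -/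
lemma sum_single (a : Fin d → ℕ) (c : ℝ) (z : Fin d → ℂ) (i : Fin d) (w : ℂ) :
    gg a c (z + Pi.single i w) = (c + ∑ j ∈ Finset.univ.erase i, 1 / 2 * Real.log (1 + ‖z j‖ ^ (2 * a j))) +
      phi (a i) (z i + w).re (z i + w).im := by
  unfold gg
  rw [← Finset.add_sum_erase _ _ (Finset.mem_univ i), ← half_log_eq, Pi.add_apply, Pi.single_eq_same]
  have : ∑ x ∈ Finset.univ.erase i, 1 / 2 * Real.log (1 + ‖(z + Pi.single i w : Fin d → ℂ) x‖ ^ (2 * a x)) =
      ∑ x ∈ Finset.univ.erase i, 1 / 2 * Real.log (1 + ‖z x‖ ^ (2 * a x)) := by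
    refine Finset.sum_congr rfl fun x hx => ?_
    rw [Pi.add_apply, Pi.single_eq_of_ne (Finset.ne_of_mem_erase hx), add_zero]
  rw [this]
  ring

lemma D2_re (a : Fin d → ℕ) (c : ℝ) (z : Fin d → ℂ) (i : Fin d) (m : ℕ) (hm : a i = m + 1) :
    D2 (gg a c) z (Pi.single i 1) (Pi.single i 1) = phi2 m (z i).re (z i).im := by
  unfold D2
  have h1 : ∀ s : ℝ, deriv (fun t : ℝ => gg a c (z + (s : ℂ) • Pi.single i (1 : ℂ) + (t : ℂ) • Pi.single i 1)) 0 =
      phi1 m ((z i).re + s) (z i).im := by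
    intro s
    have h2 : (fun t : ℝ => gg a c (z + (s : ℂ) • Pi.single i (1 : ℂ) + (t : ℂ) • Pi.single i 1)) = fun t : ℝ =>
        (c + ∑ j ∈ Finset.univ.erase i, 1 / 2 * Real.log (1 + ‖z j‖ ^ (2 * a j))) +
          phi (m + 1) ((z i).re + s + t) (z i).im := by
      funext t
      have h3 : z + (s : ℂ) • Pi.single i (1 : ℂ) + (t : ℂ) • Pi.single i 1 = z + Pi.single i ((s : ℂ) + t) := by
        rw [← Pi.single_smul, ← Pi.single_smul, add_assoc, ← Pi.single_add]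
        simp
      rw [h3, sum_single, hm]
      simp [add_assoc]
    rw [h2, deriv_const_add, deriv_re]
  simp_rw [h1]
  exact deriv_re2 m _ _

lemma D2_im (a : Fin d → ℕ) (c : ℝ) (z : Fin d → ℂ) (i : Fin d) (m : ℕ) (hm : a i = m + 1) :
    D2 (gg a c) z (Pi.single i Complex.I) (Pi.single i Complex.I) = phi2 m (z i).im (z i).re := by
  unfold D2
  have h1 : ∀ s : ℝ, deriv (fun t : ℝ => gg a c (z + (s : ℂ) • Pi.single i Complex.I +
      (t : ℂ) • Pi.single i Complex.I)) 0 = phi1 m ((z i).im + s) (z i).re := by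
    intro s
    have h2 : (fun t : ℝ => gg a c (z + (s : ℂ) • Pi.single i Complex.I + (t : ℂ) • Pi.single i Complex.I)) =
        fun t : ℝ => (c + ∑ j ∈ Finset.univ.erase i, 1 / 2 * Real.log (1 + ‖z j‖ ^ (2 * a j))) +
          phi (m + 1) ((z i).im + s + t) (z i).re := by
      funext t
      have h3 : z + (s : ℂ) • Pi.single i Complex.I + (t : ℂ) • Pi.single i Complex.I =
          z + Pi.single i ((s : ℂ) * Complex.I + t * Complex.I) := by
        rw [← Pi.single_smul, ← Pi.single_smul, add_assoc, ← Pi.single_add]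
        simp
      rw [h3, sum_single, hm, phi_symm]
      simp [add_assoc]
    rw [h2, deriv_const_add, deriv_re]
  simp_rw [h1]
  exact deriv_re2 m _ _

lemma D2_ne (a : Fin d → ℕ) (c : ℝ) (z : Fin d → ℂ) (i j : Fin d) (hij : i ≠ j) (v w : ℂ) :
    D2 (gg a c) z (Pi.single i v) (Pi.single j w) = 0 := by
  unfold D2
  have h1 : ∀ s : ℝ, deriv (fun t : ℝ => gg a c (z + (s : ℂ) • Pi.single i v + (t : ℂ) • Pi.single j w)) 0 =
      deriv (fun t : ℝ => phi (a j) (z j + t * w).re (z j + t * w).im) 0 := by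
    intro s
    have h2 : (fun t : ℝ => gg a c (z + (s : ℂ) • Pi.single i v + (t : ℂ) • Pi.single j w)) = fun t : ℝ =>
        (c + ∑ k ∈ Finset.univ.erase j, 1 / 2 *
          Real.log (1 + ‖(z + (s : ℂ) • Pi.single i v : Fin d → ℂ) k‖ ^ (2 * a k))) +
          phi (a j) (z j + t * w).re (z j + t * w).im := by
      funext t
      rw [← Pi.single_smul (i := j), sum_single]
      have h4 : (z + (s : ℂ) • Pi.single i v : Fin d → ℂ) j = z j := by
        rw [Pi.add_apply, Pi.smul_apply, Pi.single_eq_of_ne (Ne.symm hij)]; simp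
      rw [h4, smul_eq_mul]
    rw [h2, deriv_const_add]
  simp_rw [h1]
  exact deriv_const _ _

lemma hess_ne (a : Fin d → ℕ) (c : ℝ) (z : Fin d → ℂ) (i j : Fin d) (hij : i ≠ j) :
    hess (gg a c) z i j = 0 := by
  unfold hess
  rw [D2_ne a c z i j hij, D2_ne a c z i j hij, D2_ne a c z i j hij, D2_ne a c z j i (Ne.symm hij)]
  simp

lemma hess_self (a : Fin d → ℕ) (c : ℝ) (z : Fin d → ℂ) (i : Fin d) (hi : 1 ≤ a i) :
    hess (gg a c) z i i = ((rho (a i) (z i) : ℝ) : ℂ) := by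
  obtain ⟨m, hm⟩ : ∃ m, a i = m + 1 := ⟨a i - 1, by omega⟩
  unfold hess
  rw [D2_re a c z i m hm, D2_im a c z i m hm, phi2_add, sub_self, rho, hm, norm_sq_eq]
  simp only [Nat.add_sub_cancel]
  push_cast
  ring

end Pool.Agent.H424.KS
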