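import Pool.Agent.H424.KS.Hess

set_option autoImplicit false

open MeasureTheory Filter Topology

namespace Pool.Agent.H424.KS

/-- the hermitian line bundles which occur -/
noncomputable def pw {d : ℕ} (a : Fin d → ℕ) (c : ℝ) : HLB d := ⟨a, gg a c⟩

lemma stdH_eq (d : ℕ) : stdH d = pw (fun _ => 1) d := by
  unfold stdH pw gg
  congr 1
  funext z
  rw [Finset.sum_add_distrib]
  simp

lemma pull_eq (d : ℕ) (a : Fin d → ℕ) : (stdH d).pull a = pw a d := by
  unfold stdH pw gg HLB.pull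
  simp only [mul_one]
  congr 1
  funext z
  rw [Finset.sum_add_distrib]
  congr 1
  · simp
  · refine Finset.sum_congr rfl fun i _ => ?_
    rw [norm_pow, ← pow_mul, mul_comm 2 (a i)]

lemma restr_eq {d : ℕ} (a : Fin (d + 1) → ℕ) (c : ℝ) (i : Fin (d + 1)) (w : ℤ) :
    (pw a c).restr i w = pw (fun j => a (i.succAbove j)) (c + 1 / 2 * Real.log (1 + |(w : ℝ)| ^ (2 * a i))) := by
  unfold pw HLB.restr gg
  congr 1
  funext z
  simp only
  rw [Fin.sum_univ_succAbove _ i, Fin.insertNth_apply_same, ← add_assoc]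
  congr 1
  · simp
  · refine Finset.sum_congr rfl fun j _ => ?_
    rw [Fin.insertNth_apply_succAbove]

lemma restr_zero {d : ℕ} (a : Fin (d + 1) → ℕ) (c : ℝ) (i : Fin (d + 1)) (hi : 1 ≤ a i) :
    (pw a c).restr i 0 = pw (fun j => a (i.succAbove j)) c := by
  rw [restr_eq]
  have : (2 * a i) ≠ 0 := by omega
  simp [this]

lemma ma_eq {d : ℕ} (a : Fin d → Fin d → ℕ) (c : Fin d → ℝ) (ha : ∀ j i, 1 ≤ a j i) (z : Fin d → ℂ) :
    ma (fun j => pw (a j) (c j)) z =
      (2 / Real.pi) ^ d * ∑ σ : Equiv.Perm (Fin d), ∏ j, rho (a j (σ j)) (z (σ j)) := by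
  unfold ma
  congr 1
  have h : ∀ σ : Equiv.Perm (Fin d), ∑ τ : Equiv.Perm (Fin d),
      (((Equiv.Perm.sign σ : ℤ) : ℂ) * ((Equiv.Perm.sign τ : ℤ) : ℂ)) *
        ∏ j, hess (pw (a j) (c j)).g z (σ j) (τ j) = ((∏ j, rho (a j (σ j)) (z (σ j)) : ℝ) : ℂ) := by
    intro σ
    rw [Finset.sum_eq_single σ]
    · have h1 : (((Equiv.Perm.sign σ : ℤ) : ℂ) * ((Equiv.Perm.sign σ : ℤ) : ℂ)) = 1 := by
        rw [← Int.cast_mul]
        have : ((Equiv.Perm.sign σ : ℤˣ) : ℤ) * ((Equiv.Perm.sign σ : ℤˣ) : ℤ) = 1 := by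
          rw [← Units.val_mul, Int.units_mul_self, Units.val_one]
        rw [this]; simp
      rw [h1, one_mul, Complex.ofReal_prod]
      refine Finset.prod_congr rfl fun j _ => ?_
      exact hess_self (a j) (c j) z (σ j) (ha _ _)
    · intro τ _ hτ
      obtain ⟨j, hj⟩ : ∃ j, σ j ≠ τ j := by
        by_contra hcon
        push Not at hcon
        exact hτ (Equiv.ext fun j => (hcon j).symm)
      have h0 : ∏ j, hess (pw (a j) (c j)).g z (σ j) (τ j) = 0 :=
        Finset.prod_eq_zero (Finset.mem_univ j) (hess_ne (a j) (c j) z _ _ hj)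
      rw [h0, mul_zero]
    · intro h; exact absurd (Finset.mem_univ σ) h
  simp_rw [h]
  rw [← Complex.ofReal_sum, Complex.ofReal_re]

lemma ma_nonneg {d : ℕ} (a : Fin d → Fin d → ℕ) (c : Fin d → ℝ) (ha : ∀ j i, 1 ≤ a j i) (z : Fin d → ℂ) :
    0 ≤ ma (fun j => pw (a j) (c j)) z := by
  rw [ma_eq a c ha]
  have := Real.pi_pos
  refine mul_nonneg (by positivity) (Finset.sum_nonneg fun σ _ => Finset.prod_nonneg fun j _ => rho_nonneg _ _)

lemma log_le (A : ℕ) (r : ℝ) (hr : 0 ≤ r) : A * Real.log r ≤ 1 / 2 * Real.log (1 + r ^ (2 * A)) := by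
  rcases hr.eq_or_lt with h | h
  · rw [← h]
    simp only [Real.log_zero, mul_zero]
    have : 0 ≤ Real.log (1 + (0 : ℝ) ^ (2 * A)) := Real.log_nonneg (by
      have : 0 ≤ (0 : ℝ) ^ (2 * A) := by positivity
      linarith)
    linarith
  · have h1 : Real.log (r ^ (2 * A)) ≤ Real.log (1 + r ^ (2 * A)) :=
      Real.log_le_log (by positivity) (by linarith)
    rw [Real.log_pow] at h1
    push_cast at h1
    linarith

lemma weight_nonneg {d : ℕ} (a : Fin d → ℕ) (c : ℝ) (hc : 0 ≤ c) (z : Fin d → ℂ) :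
    0 ≤ (pw a c).g z - ∑ i, ((pw a c).m i : ℝ) * Real.log ‖z i‖ := by
  simp only [pw, gg]
  have : ∑ i, (a i : ℝ) * Real.log ‖z i‖ ≤ ∑ i, 1 / 2 * Real.log (1 + ‖z i‖ ^ (2 * a i)) :=
    Finset.sum_le_sum fun i _ => log_le (a i) _ (norm_nonneg _)
  linarith

lemma adeg_succ {d : ℕ} (a : Fin (d + 2) → Fin (d + 1) → ℕ) (c : Fin (d + 2) → ℝ) (ha : ∀ j i, 1 ≤ a j i) :
    adeg (d + 1) (fun j => pw (a j) (c j)) =
      ∑ i, (a (Fin.last (d + 1)) i : ℝ) *
        adeg d (fun j => pw (fun k => a j.castSucc (i.succAbove k)) (c j.castSucc)) +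
      ∫ z : Fin (d + 1) → ℂ,
        ((pw (a (Fin.last (d + 1))) (c (Fin.last (d + 1)))).g z -
          ∑ i, ((pw (a (Fin.last (d + 1))) (c (Fin.last (d + 1)))).m i : ℝ) * Real.log ‖z i‖) *
          ma (fun j : Fin (d + 1) => pw (a j.castSucc) (c j.castSucc)) z := by
  have h : ∀ i : Fin (d + 1), (fun j : Fin (d + 1) => (pw (a j.castSucc) (c j.castSucc)).restr i 0) =
      fun j => pw (fun k => a j.castSucc (i.succAbove k)) (c j.castSucc) := by
    intro i
    funext j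
    exact restr_zero _ _ _ (ha _ _)
  rw [adeg]
  congr 1
  refine Finset.sum_congr rfl fun i _ => ?_
  rw [h i]
  rfl

theorem adeg_nonneg : ∀ (d : ℕ) (a : Fin (d + 1) → Fin d → ℕ) (c : Fin (d + 1) → ℝ), (∀ j i, 1 ≤ a j i) →
    (∀ j, 0 ≤ c j) → 0 ≤ adeg d (fun j => pw (a j) (c j)) := by
  intro d
  induction d with
  | zero =>
    intro a c _ hc
    simp only [adeg, pw, gg]
    simpa using hc 0
  | succ d ih =>
    intro a c ha hc
    rw [adeg_succ a c ha]
    refine add_nonneg (Finset.sum_nonneg fun i _ => mul_nonneg (by positivity) (ih _ _ (fun _ _ => ha _ _)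
      (fun _ => hc _))) (integral_nonneg fun z => mul_nonneg (weight_nonneg _ _ (hc _) _)
      (ma_nonneg (fun j : Fin (d + 1) => a j.castSucc) _ (fun _ _ => ha _ _) _))

theorem adeg_ge {d : ℕ} (a : Fin (d + 2) → Fin (d + 1) → ℕ) (c : Fin (d + 2) → ℝ) (ha : ∀ j i, 1 ≤ a j i)
    (hc : ∀ j, 0 ≤ c j) (i : Fin (d + 1)) :
    (a (Fin.last (d + 1)) i : ℝ) *
        adeg d (fun j => pw (fun k => a j.castSucc (i.succAbove k)) (c j.castSucc)) ≤
      adeg (d + 1) (fun j => pw (a j) (c j)) := by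
  rw [adeg_succ a c ha]
  have h1 := Finset.single_le_sum (f := fun i => (a (Fin.last (d + 1)) i : ℝ) *
    adeg d (fun j => pw (fun k => a j.castSucc (i.succAbove k)) (c j.castSucc)))
    (fun i _ => mul_nonneg (by positivity) (adeg_nonneg d _ _ (fun _ _ => ha _ _) (fun _ => hc _)))
    (Finset.mem_univ i)
  have h2 : 0 ≤ ∫ z : Fin (d + 1) → ℂ,
        ((pw (a (Fin.last (d + 1))) (c (Fin.last (d + 1)))).g z -
          ∑ i, ((pw (a (Fin.last (d + 1))) (c (Fin.last (d + 1)))).m i : ℝ) * Real.log ‖z i‖) *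
          ma (fun j : Fin (d + 1) => pw (a j.castSucc) (c j.castSucc)) z :=
    integral_nonneg fun z => mul_nonneg (weight_nonneg _ _ (hc _) _)
      (ma_nonneg (fun j : Fin (d + 1) => a j.castSucc) _ (fun _ _ => ha _ _) _)
  linarith

end Pool.Agent.H424.KS
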